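import Pool.Agent.V1128.INV.Good

/-!
MP_6a3dac_ag: regular proper flat models, in every dimension, of the quotients of projective
varieties over number fields by involutions which act on a regular projective model over the ring
of integers. The involution may have fixed points, on the generic fibre and on the special fibres,
and it may be wild at the fixed points of residue characteristic `2`.

The regular projective model `X` over the ring of integers `𝓞 E` is given by homogeneous coordinates
`H j` in its function field `K`: its charts are the spectra of the rings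
`A j = (𝓞 E)[H 0 / H j, ..., H N / H j] ⊆ K`. The involution `σ ≠ 1` of `K` maps linear forms to
linear forms, so that it acts on `X`. A `σ`-stable module `I` of linear forms cuts out a closed
subscheme of `X` with empty generic fibre, the centre (it is empty if `I` is the module of all
linear forms). There are no conditions on the fixed points of residue characteristic different
from `2`.

The variety `V` over `E` is one of the following.
1. The image of the generic fibre of `X` under the linear system of all the forms of degree `8`
   which `σ` multiplies by `-1` (the quotient by `σ` of the blowing-up of the generic fibre in the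
   fixed points).
2. The quotient of the generic fibre by `σ`, if `σ` has no fixed points on the generic fibre.
-/

set_option autoImplicit false

open AlgebraicGeometry CategoryTheory CategoryTheory.Limits MvPolynomial NumberField

open scoped NumberField Pointwise

namespace Pool.Agent.Results.MP_6a3dac_ag.InvolutionQuotients

section

variable {O K : Type} [CommRing O] [Field K] [Algebra O K]

/-- The ring `O[H 0 / H j, ..., H N / H j]` of the chart `H j ≠ 0`. -/
def chartRing (O : Type) {K : Type} [CommRing O] [Field K] [Algebra O K] {N : ℕ}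
    (H : Fin (N + 1) → K) (j : Fin (N + 1)) : Subring K :=
  (Algebra.adjoin O (Set.range fun l => H l / H j)).toSubring

/-- The local ring at the prime `𝔮` of the subring `A` of the field `K`, as a subring of `K`. -/
noncomputable def localRing (A : Subring K) (𝔮 : Ideal A) [𝔮.IsPrime] : Subring K :=
  (LocalSubring.ofPrime A 𝔮).toSubring

/-- The ideal generated by the linear forms in `I` (divided by the linear form `h`) in `R`. -/
def centreIdeal (I : Submodule O K) (h : K) (R : Subring K) : Ideal R :=
  Ideal.span {y : R | ∃ n ∈ I, (y : K) = n / h}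

variable (σ : K ≃ₐ[O] K)

/-- The point with the local ring `R` is a point of the fixed scheme of `σ`: the ring `R` is stable
under `σ`, which acts trivially on its residue field. -/
def IsFixed (R : Subring K) : Prop :=
  ∀ x : R, ∃ y : R, (y : K) = σ x ∧ ¬ IsUnit (y - x)

/-- `σ = 1 + t δ` on `R`, where the ideal generated by the image of `δ` is the unit ideal, or has a
regular quotient: the fixed scheme is the sum of the divisor of `t` and a regular scheme. -/
def RegularWild (R : Subring K) : Prop :=
  ∃ (t : R) (δ : R → R), t ≠ 0 ∧ (∀ x : R, σ x = x + t * δ x) ∧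
    (Ideal.span (Set.range δ) = ⊤ ∨ IsRegularLocalRing (R ⧸ Ideal.span (Set.range δ)))

/-- `σ = 1 + t δ` on `R`, and `δ ∘ δ = ε δ`, where `ε` and the image of `δ` are in the ideal `I` of
the centre, and `δ` maps `I` to `I ^ 2`, and the leading form of `δ` along the centre has no zeros:
the products of `n + 2` elements of `I` are combinations of the elements `ε a` and `δ(x) a`,
`a ∈ I ^ (n + 1)`, and `δ(y) b`, `y ∈ I`, `b ∈ I ^ n`. -/
def NondegenerateWild (R : Subring K) (I : Ideal R) : Prop :=
  ∃ (t ε : R) (δ : R → R), t ≠ 0 ∧ (∀ x : R, σ x = x + t * δ x) ∧ (∀ x, δ (δ x) = ε * δ x) ∧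
    ε ∈ I ∧ (∀ x, δ x ∈ I) ∧ (∀ x ∈ I, δ x ∈ I ^ 2) ∧
    ∃ n : ℕ, I ^ (n + 2) ≤ (Ideal.span {ε} ⊔ Ideal.span (Set.range δ)) * I ^ (n + 1) ⊔
      Ideal.span (δ '' I) * I ^ n

/-- The centre is empty or regular at the point with the local ring `R`, and the fixed points of
residue characteristic `2` outside the centre, and on the centre, satisfy the respective
condition. -/
def PointCondition (R : Subring K) (I : Ideal R) : Prop :=
  (I = ⊤ ∨ IsRegularLocalRing (R ⧸ I)) ∧
    (¬ IsUnit (2 : R) → IsFixed σ R →
      (I = ⊤ → RegularWild σ R) ∧ (I ≠ ⊤ → NondegenerateWild σ R I))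

end

section

variable (E : Type) {O K : Type} [Field E] [CommRing O] [Field K] [Algebra E K] [Algebra O K]
  (σ : K ≃ₐ[O] K) {N : ℕ} (H : Fin (N + 1) → K)

/-- The forms of degree `d` on the generic fibre, with coefficients in `E`. -/
def forms (d : ℕ) : Submodule E K :=
  Submodule.span E (Set.range H) ^ d

/-- The forms of degree `d` on the generic fibre which are invariant under `σ`. -/
def invariantForms (d : ℕ) : Submodule E K :=
  Submodule.span E {y | y ∈ forms E H d ∧ σ y = y}

/-- The forms of degree `d` on the generic fibre which `σ` multiplies by `-1`. -/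
def antiInvariantForms (d : ℕ) : Submodule E K :=
  Submodule.span E {y | y ∈ forms E H d ∧ σ y = -y}

/-- The variety with the homogeneous coordinates `x` in `F` is the image of the generic fibre under
the linear system of the anti-invariant forms of degree `8`, up to Veronese embeddings: the forms of
degree `D` in `x` are the combinations of the products of `k` anti-invariant forms of degree `8`,
divided by `ω`. -/
def IsImage {F : Type} [Field F] [Algebra E F] [Algebra F K] {n : ℕ} (x : Fin (n + 1) → F) : Prop :=
  ∃ (D k : ℕ) (ω : K), 1 ≤ D ∧ 1 ≤ k ∧ ∀ z : K, z ∈ antiInvariantForms E σ H 8 ^ k ↔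
    ∃ P : MvPolynomial (Fin (n + 1)) E, P.IsHomogeneous D ∧ z = ω * algebraMap F K (aeval x P)

/-- The involution has no fixed points on the generic fibre: the products of an invariant and an
anti-invariant linear form have no common zeros. -/
def HasNoFixedPoints : Prop :=
  ∃ r : ℕ, forms E H (r + 2) ≤ forms E H r * (invariantForms E σ H 1 * antiInvariantForms E σ H 1)

/-- The variety with the homogeneous coordinates `x` in `F` is the quotient of the generic fibre by
`σ`: the forms of degree `d` in `x` are the invariant forms of degree `m d`. -/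
def IsQuotient {F : Type} [Field F] [Algebra E F] [Algebra F K] {n : ℕ} (x : Fin (n + 1) → F) :
    Prop :=
  ∃ m : ℕ, 1 ≤ m ∧ ∀ (d : ℕ) (z : K), z ∈ invariantForms E σ H (m * d) ↔
    ∃ P : MvPolynomial (Fin (n + 1)) E, P.IsHomogeneous d ∧ z = algebraMap F K (aeval x P)

end

/-- `x` are homogeneous coordinates in the field `F` of the variety with the homogeneous coordinate
ring `B` over `E`: a form vanishes in `B` if and only if it vanishes at `x`. -/
def IsCoordinates {E F B : Type} [Field E] [Field F] [Algebra E F] [CommRing B] [Algebra E B]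
    {n : ℕ} (π : MvPolynomial (Fin (n + 1)) E →ₐ[E] B) (x : Fin (n + 1) → F) : Prop :=
  ∀ d, ∀ P : MvPolynomial (Fin (n + 1)) E, P.IsHomogeneous d → (π P = 0 ↔ aeval x P = 0)

/-- The dimension of the local ring `A` equals the dimension of its cotangent space. -/
def HasRegularDimension (A : Type) [CommRing A] [IsLocalRing A] : Prop :=
  ringKrullDim A = (((Module.finrank (IsLocalRing.ResidueField A)
    (IsLocalRing.CotangentSpace A) : ℕ) : ℕ∞) : WithBot ℕ∞)

/-- The generic fibre of `g` is isomorphic over `E` to `X` with the morphism `f`. -/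
def HasGenericFibre {E : Type} [Field E] {X Y : Scheme.{0}}
    (f : X ⟶ Spec (CommRingCat.of E)) (g : Y ⟶ Spec (CommRingCat.of (𝓞 E))) : Prop :=
  ∃ e : pullback g (Spec.map (CommRingCat.ofHom (algebraMap (𝓞 E) E))) ≅ X,
    e.hom ≫ f = pullback.snd g (Spec.map (CommRingCat.ofHom (algebraMap (𝓞 E) E)))

/-- The morphism `g` from `Y` is a regular proper flat model over the ring of integers of `E` of `X`
with the morphism `f` to `Spec E`. -/
def IsRegularProperFlatModel {E : Type} [Field E] {X Y : Scheme.{0}}
    (f : X ⟶ Spec (CommRingCat.of E)) (g : Y ⟶ Spec (CommRingCat.of (𝓞 E))) : Prop :=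
  IsProper g ∧ Flat g ∧ (∀ y : Y, HasRegularDimension (Y.presheaf.stalk y)) ∧ HasGenericFibre f g

/-- The structure morphism of `Proj ℬ` over `E`. -/
noncomputable def structureMorphism {E B : Type} [Field E] [CommRing B] [Algebra E B]
    (ℬ : ℕ → Submodule E B) [GradedAlgebra ℬ] : Proj ℬ ⟶ Spec (CommRingCat.of E) :=
  Proj.toSpecZero ℬ ≫ Spec.map (CommRingCat.ofHom (algebraMap E (ℬ 0)))

theorem result :
    ∀ (E : Type) [Field E] [NumberField E]
      -- the regular projective model `X` over `𝓞 E`, with the function field `K`
      (K : Type) [Field K] [Algebra E K] [Algebra (𝓞 E) K] [IsScalarTower (𝓞 E) E K]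
      (N : ℕ) (H : Fin (N + 1) → K), (∀ j, H j ≠ 0) →
      (∀ j, IsRegularRing (chartRing (𝓞 E) H j)) →
      -- the involution, with the field of invariants `F`
      ∀ (σ : K ≃ₐ[𝓞 E] K), (∀ y, σ (σ y) = y) → (∃ i j, σ (H i / H j) ≠ H i / H j) →
      (∀ j, σ (H j) ∈ Submodule.span (𝓞 E) (Set.range H)) →
      ∀ (F : Type) [Field F] [Algebra E F] [Algebra F K] [IsScalarTower E F K],
      (∀ y, σ y = y ↔ ∃ f : F, algebraMap F K f = y) →
      -- the centre
      ∀ (I : Submodule (𝓞 E) K), I ≤ Submodule.span (𝓞 E) (Set.range H) →
      (∃ s : 𝓞 E, s ≠ 0 ∧ ∀ y ∈ Submodule.span (𝓞 E) (Set.range H), s • y ∈ I) →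
      (∀ x ∈ I, σ x ∈ I) →
      (∀ j (𝔮 : Ideal (chartRing (𝓞 E) H j)) [𝔮.IsPrime],
        PointCondition σ (localRing (chartRing (𝓞 E) H j) 𝔮)
          (centreIdeal I (H j) (localRing (chartRing (𝓞 E) H j) 𝔮))) →
      -- the variety `V`, with the homogeneous coordinate ring `B` and the homogeneous
      -- coordinates `x`
      ∀ (n : ℕ) (B : Type) [CommRing B] [Algebra E B] (π : MvPolynomial (Fin (n + 1)) E →ₐ[E] B),
      Function.Surjective π →
      ∀ (ℬ : ℕ → Submodule E B) [GradedAlgebra ℬ],
      (∀ d, ℬ d = (homogeneousSubmodule (Fin (n + 1)) E d).map π.toLinearMap) →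
      ∀ (x : Fin (n + 1) → F), IsCoordinates π x →
      (IsImage E σ H x ∨ (HasNoFixedPoints E σ H ∧ IsQuotient E σ H x)) →
      -- every scheme over `E` isomorphic to `V = Proj ℬ` has a regular proper flat model
      ∀ (V : Scheme.{0}) (f : V ⟶ Spec (CommRingCat.of E)) (i : V ≅ Proj ℬ),
      i.hom ≫ structureMorphism ℬ = f →
      ∃ (Y : Scheme.{0}) (g : Y ⟶ Spec (CommRingCat.of (𝓞 E))), IsRegularProperFlatModel f g := by
  intro E _ _ K _ _ _ _ N H hH hreg σ hσ hne hσH F _ _ _ _ hF I hI ⟨s, hs, hsI⟩ hσI hpt n B _ _ π hπ
    ℬ _ hℬ x hx hV V f i hi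
  exact Pool.Agent.V1128.INV.model_O x π hπ ℬ hℬ (fun d P hP => hx d P hP)
    (Pool.Agent.V1128.INV.good_of x σ hσ hF H hH hreg hσH hne I hI hs hsI hσI hpt hV) f i hi

end Pool.Agent.Results.MP_6a3dac_ag.InvolutionQuotients
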